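import Mathlib
import Pool.Agent.N730.FT.Count

/-!
# Cohen forcing preserves that II wins the Menger game on a compact metrizable space only if the space
is countable

Sentences of the forcing language of a preordered set `P` are the sets of the conditions which force
them, names for families of subsets of a ground model set `X` are the maps `Set X → Set P`
(`Pool/Agent/Helper669/Forcing.lean`, `Pool/Agent/V11244/CohGame.lean`, starting files).  In the
extension I plays families of ground model open sets which cover `X`; since every open cover of the
extension is refined by such a family, II has a winning strategy in this game if and only if II has one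
in the Menger game on `X` with the ground model topology as a base.

The case of the Cantor space, on which II has no winning strategy in the extension, is the theorem
`Pool.Agent.V11244.CohCore.no_menger` of the starting files.  It is extended here to all spaces with
a closed subset that can be mapped continuously onto the Cantor space.
-/

set_option autoImplicit false

namespace Pool.Agent.Results.MP_18f314_lc.MengerGameNotPreserved

open Pool.Agent.Helper669.Forcing
open Pool.Agent.V11244.CohGame
open Pool.Agent.V11244.CohCore (Coh)

universe v

/-- Cohen forcing `Coh` is strongly proper for stationarily many models.  If a space `X` has a closed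
subset that can be mapped continuously onto the Cantor space, then every condition of `Coh` forces that
II has no winning strategy in the Menger game on `X`.  In particular, on every compact metrizable space
`X` II has a winning strategy in the ground model, and: if `X` is countable, all conditions force that
II still has one, and if `X` is uncountable, all conditions force that II has none. -/
theorem result :
    StronglyProper Coh ∧
    (∀ (X : Type v) [TopologicalSpace X] (C : Set X) (f : C → (ℕ → Bool)), IsClosed C → Continuous f →
      Function.Surjective f →
      ∀ p : Coh, p ∈ fnot (fIIWinsFin (P := Coh) (X := X) fOpenCover fOpenCover)) ∧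
    (∀ (X : Type v) [TopologicalSpace X] [CompactSpace X] [TopologicalSpace.MetrizableSpace X],
      IIWinsFin (OpenCovers X) (OpenCovers X) ∧
      (Countable X → ∀ p : Coh, p ∈ fIIWinsFin (P := Coh) (X := X) fOpenCover fOpenCover) ∧
      (¬ Countable X → ∀ p : Coh, p ∈ fnot (fIIWinsFin (P := Coh) (X := X) fOpenCover fOpenCover))) := by
  refine ⟨stronglyProper_of_countable, fun X _ C f hC hf hs p => Pool.Agent.N730.FT.no_menger hC hf hs p,
    fun X _ _ _ => ⟨wins_of_compact, fun _ p => Pool.Agent.N730.FT.countable_wins p, fun h p => ?_⟩⟩
  letI := TopologicalSpace.metrizableSpaceMetric X
  obtain ⟨C, f, hC, hf, hs⟩ := Pool.Agent.N730.FT.exists_cantor h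
  exact Pool.Agent.N730.FT.no_menger hC hf hs p

end Pool.Agent.Results.MP_18f314_lc.MengerGameNotPreserved
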